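import Pool.Agent.SuperADP.Dual

set_option autoImplicit false

namespace Pool.Agent.Results.MP_bb1dce_an.DualFailsCPCP

open Pool.Agent.SuperADP

/-- The dual of every infinite-dimensional real or complex Banach space with the super alternative
Daugavet property fails the convex point of continuity property (for its dual norm and its weak
topology). -/
theorem result (𝕜 : Type*) [RCLike 𝕜] (X : Type*) [NormedAddCommGroup X] [NormedSpace 𝕜 X]
    [CompleteSpace X] (hX : ¬ FiniteDimensional 𝕜 X) (h : HasSuperADP 𝕜 X) :
    ¬ HasCPCP 𝕜 (StrongDual 𝕜 X) := by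
  obtain ⟨y, hy, hlow⟩ := h.exists_ell1_sequence hX
  exact not_cpcp_of_sequence hy (by norm_num) hlow

end Pool.Agent.Results.MP_bb1dce_an.DualFailsCPCP
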